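import Pool.Agent.Lib.MP_0e7911_co_full.Asm
import Pool.Agent.Lib.MP_0e7911_co_full.NonVac

namespace Pool.Agent.Results.MP_0e7911_co.FullSquarePaths

open Finset Pool.Agent.Lib.MP_0e7911_co_full Pool.Agent.Lib.MP_0e7911_co_h56
open Pool.Agent.Lib.MP_0e7911_co_rect (LRP wt)

/-- The rectangular analogue of the square paths conjecture, for all `m, n ≥ 1`: with
`d = gcd m n` and `(m, n) = (a d, b d)`,
`[m]_q / [d]_q * p_{m,n} = ∑_{π ∈ LRP(m,n)} q^dinv t^area x^π`,
`p_{m,n} = (-1)^(d (b+1)) F_{a,b}((-1)^(d-1) p_d)`, in the variables `x_1, ..., x_N`, for every `N`.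
`H` are the modified Macdonald polynomials, `Δ` is `Δ_{e_1}`, `Q` are the operators `Q_{m,n}`,
`F` is the map `F_{a,b}`. The first part says that such `H`, `Δ`, `Q` and `F` exist. -/
theorem result (K : Type*) [Field K] [CharZero K] (q t : K)
    (hqt : AlgebraicIndependent ℚ ![q, t]) :
    (∃ (H : YoungDiagram → SymF K) (Δ : Module.End K (SymF K))
      (Q : ℕ → ℕ → Module.End K (SymF K)) (F : ℕ → ℕ → Module.End K (SymF K)),
      IsModMac q t H ∧ IsDelta q t H Δ ∧ IsQ q t Δ Q ∧ ∀ a b, IsF q t Q a b (F a b)) ∧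
    ∀ (H : YoungDiagram → SymF K), IsModMac q t H →
    ∀ (Δ : Module.End K (SymF K)), IsDelta q t H Δ →
    ∀ (Q : ℕ → ℕ → Module.End K (SymF K)), IsQ q t Δ Q →
    ∀ (m n N : ℕ) [NeZero m] [NeZero n] (d : ℕ), d = Nat.gcd m n →
    ∀ (F : Module.End K (SymF K)), IsF q t Q (m / d) (n / d) F →
      MvPolynomial.C (qint q m / qint q d) *
        evN K N ((-1) ^ (d * (n / d + 1)) * F ((-1) ^ (d - 1) * psum K d)) =
        ∑ p ∈ LRP m n N, wt q t p := by
  refine ⟨exists_all q t hqt, ?_⟩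
  intro H hH Δ hΔ Q hQ m n N _ _ d hd F hF
  have hm : 0 < m := Nat.pos_of_ne_zero (NeZero.ne m)
  have hn : 0 < n := Nat.pos_of_ne_zero (NeZero.ne n)
  have hd0 : 0 < d := by rw [hd]; exact Nat.gcd_pos_of_pos_left _ hm
  have hdm : m / d * d = m := by rw [hd]; exact Nat.div_mul_cancel (Nat.gcd_dvd_left m n)
  have hdn : n / d * d = n := by rw [hd]; exact Nat.div_mul_cancel (Nat.gcd_dvd_right m n)
  have ha : 0 < m / d := Nat.pos_of_ne_zero fun h => by rw [h, zero_mul] at hdm; omega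
  have hb : 0 < n / d := Nat.pos_of_ne_zero fun h => by rw [h, zero_mul] at hdn; omega
  have hcop : Nat.Coprime (m / d) (n / d) := by
    rw [hd]
    exact Nat.coprime_div_gcd_div_gcd (by rw [← hd]; exact hd0)
  exact full' q t hqt H hH Δ hΔ Q hQ (m / d) (n / d) d N m n ha hb hd0 hcop hdm.symm hdn.symm F hF

end Pool.Agent.Results.MP_0e7911_co.FullSquarePaths
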