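import Pool.Agent.Lib.MP_0e7911_co_rect.Main

namespace Pool.Agent.Results.MP_0e7911_co.SquarePathsToDyck

open Finset Pool.Agent.Lib.MP_0e7911_co_rect

/-- For all `m, n, N ≥ 1`, the generating function of the labelled `m × n` rectangular paths is
the sum over `k = 1, ..., gcd m n` of `[m]_q / [k]_q` times the generating function of the
labelled `m × n` rectangular Dyck paths with exactly `k` touches; both sides may be weighted by
any function `f` of the multiset of the pairs (shifted level, label). -/
theorem result (m n N : ℕ) [NeZero m] [NeZero n] (K : Type*) [Field K] (q t : K) (hq : q ≠ 0)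
    (hk : ∀ k : ℕ, 1 ≤ k → qint q k ≠ 0) (f : Multiset (ℚ × Fin N) → K) :
    ∑ p ∈ LRP m n N, MvPolynomial.C (f (prof p)) * wt q t p =
      ∑ k ∈ Icc 1 (Nat.gcd m n), MvPolynomial.C (qint q m / qint q k) *
        ∑ p ∈ (LRD m n N).filter (fun p => touches p.1 = k),
          MvPolynomial.C (f (prof p)) * wt q t p :=
  main q t hq hk f

end Pool.Agent.Results.MP_0e7911_co.SquarePathsToDyck
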